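import Mathlib
import Pool.Agent.Helper21.SR.St

/-! # SR module REG -/

set_option autoImplicit false

namespace Pool.Agent.Helper87.SR

open Finset
open scoped Pointwise
open Pool.Agent.Helper21.SR
open Pool.Agent.Helper17.WES (D D_comm D_self D_triangle D_label D_cross D_nonneg gap)

theorem hReg : StReg := by
  classical
  intro X hpos hX hN
  have hm : 0 < #X := hX.card_pos
  set W := (X ×ˢ X).filter (fun p => #X ≤ 4 * #(X.filter (fun y => D p.1 y ≤ D p.1 p.2))) with hW
  have hWne : W.Nonempty := by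
    obtain ⟨x, hx⟩ := hX
    obtain ⟨y, hy, hymax⟩ := X.exists_max_image (fun y => D x y) ⟨x, hx⟩
    refine ⟨(x, y), ?_⟩
    rw [hW, Finset.mem_filter, Finset.mem_product]
    refine ⟨⟨hx, hy⟩, ?_⟩
    have : X.filter (fun z => D x z ≤ D x y) = X :=
      Finset.filter_true_of_mem fun z hz => hymax z hz
    simp only
    rw [this]; omega
  obtain ⟨⟨x0, y0⟩, hp0, hmin⟩ := W.exists_min_image (fun p => D p.1 p.2) hWne
  rw [hW, Finset.mem_filter, Finset.mem_product] at hp0
  obtain ⟨⟨hx0, hy0⟩, hA0⟩ := hp0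
  simp only at hA0 hmin hx0 hy0
  set ρ := D x0 y0 with hρ
  have hρ0 : 0 ≤ ρ := D_nonneg _ _
  have hopen : ∀ x ∈ X, 4 * #(X.filter (fun y => D x y < ρ)) < #X := by
    intro x hx
    by_contra hcon
    push Not at hcon
    have hne : (X.filter (fun y => D x y < ρ)).Nonempty := by
      rw [← Finset.card_pos]; omega
    obtain ⟨y1, hy1, hy1max⟩ := Finset.exists_max_image _ (fun y => D x y) hne
    rw [Finset.mem_filter] at hy1
    have hmemW : (x, y1) ∈ W := by
      rw [hW, Finset.mem_filter, Finset.mem_product]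
      refine ⟨⟨hx, hy1.1⟩, ?_⟩
      simp only
      refine hcon.trans (Nat.mul_le_mul_left _ (Finset.card_le_card ?_))
      intro z hz
      have hz' := hz
      rw [Finset.mem_filter] at hz
      rw [Finset.mem_filter]
      exact ⟨hz.1, hy1max z hz'⟩
    have := hmin _ hmemW
    simp only at this
    linarith [hy1.2]
  set A0 := X.filter (fun y => D x0 y ≤ ρ) with hA0def
  set A1 := X.filter (fun y => D x0 y ≤ 5 * ρ) with hA1def
  have hA1pos : ∀ a ∈ A1, 0 < a := fun a ha => hpos a (Finset.mem_filter.1 ha).1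
  -- the outer part is small
  have hinj : #((X \ A1) ×ˢ A0 ×ˢ A0) ≤ #((X + X) ×ˢ (X * X)) := by
    apply Finset.card_le_card_of_injOn
      (fun i : ℕ × ℕ × ℕ => (i.1 + i.2.1, i.1 * i.2.2))
    · intro i hi
      simp only [Finset.coe_product, Set.mem_prod, Finset.mem_coe, Finset.mem_sdiff] at hi ⊢
      obtain ⟨⟨h1, _⟩, h2, h3⟩ := hi
      have h2 := (Finset.mem_filter.1 h2).1
      have h3 := (Finset.mem_filter.1 h3).1
      exact ⟨Finset.add_mem_add h1 h2, Finset.mul_mem_mul h1 h3⟩
    · rintro ⟨x, x', s⟩ hi ⟨y, y', t⟩ hj hij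
      simp only [Finset.coe_product, Set.mem_prod, Finset.mem_coe, Finset.mem_sdiff] at hi hj
      simp only [Prod.mk.injEq] at hij
      obtain ⟨⟨hxX, hx⟩, hx', hs⟩ := hi
      obtain ⟨⟨hyX, hy⟩, hy', ht⟩ := hj
      obtain ⟨k1, k2⟩ := hij
      have px := hpos x hxX
      have py := hpos y hyX
      have px0 := hpos x0 hx0
      have mem0 : ∀ z ∈ A0, 0 < z ∧ D x0 z ≤ ρ := fun z hz =>
        ⟨hpos z (Finset.mem_filter.1 hz).1, (Finset.mem_filter.1 hz).2⟩
      obtain ⟨px', dx'⟩ := mem0 x' hx'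
      obtain ⟨py', dy'⟩ := mem0 y' hy'
      obtain ⟨ps, ds⟩ := mem0 s hs
      obtain ⟨pt, dt⟩ := mem0 t ht
      have dx : 5 * ρ < D x0 x := by
        by_contra hc
        exact hx (Finset.mem_filter.2 ⟨hxX, not_lt.1 hc⟩)
      have dy : 5 * ρ < D x0 y := by
        by_contra hc
        exact hy (Finset.mem_filter.2 ⟨hyX, not_lt.1 hc⟩)
      by_cases hxy : x = y
      · subst hxy
        have h2 : x' = y' := by omega
        subst h2
        have h3 : s = t := Nat.eq_of_mul_eq_mul_left px k2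
        rw [h3]
      · exfalso
        have hg := gap x x' y y' px px' py py' hxy k1
        have hc := D_cross x x' y y' px px' py py'
        have e1 := D_label x s y t px ps py pt k2
        have t1 := D_triangle s x0 t ps px0 pt
        rw [D_comm s x0] at t1
        have t2 := D_triangle x' x0 y' px' px0 py'
        rw [D_comm x' x0] at t2
        have t3 := D_triangle x0 x' x px0 px' px
        rw [D_comm x' x] at t3
        have t4 := D_triangle x0 y' y px0 py' py
        rw [D_comm y' y] at t4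
        linarith
  have hF : 2 * #(X \ A1) ≤ #X := by
    rw [Finset.card_product, Finset.card_product, Finset.card_product] at hinj
    by_contra hcon
    push Not at hcon
    have h1 : #X ^ 2 * #(X \ A1) ≤ 16 * (#(X + X) * #(X * X)) := by
      calc #X ^ 2 * #(X \ A1) ≤ (4 * #A0) ^ 2 * #(X \ A1) := by gcongr
        _ = 16 * (#(X \ A1) * (#A0 * #A0)) := by ring
        _ ≤ 16 * (#(X + X) * #(X * X)) := by gcongr
    have h2 : #X ^ 3 < #X ^ 2 * (2 * #(X \ A1)) := by
      rw [pow_succ]
      exact Nat.mul_lt_mul_of_pos_left hcon (by positivity)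
    have h3 : #X ^ 2 * (2 * #(X \ A1)) ≤ 32 * (#(X + X) * #(X * X)) := by
      calc #X ^ 2 * (2 * #(X \ A1)) = 2 * (#X ^ 2 * #(X \ A1)) := by ring
        _ ≤ 2 * (16 * (#(X + X) * #(X * X))) := by gcongr
        _ = 32 * (#(X + X) * #(X * X)) := by ring
    omega
  have hcard : #(X \ A1) + #A1 = #X := Finset.card_sdiff_add_card_eq_card (Finset.filter_subset _ _)
  refine ⟨A1, Finset.filter_subset _ _, by omega, 10 * ρ, by linarith, ?_, ?_⟩
  · intro a ha b hb
    have h1 := (Finset.mem_filter.1 ha).2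
    have h2 := (Finset.mem_filter.1 hb).2
    have := D_triangle a x0 b (hA1pos a ha) (hpos x0 hx0) (hA1pos b hb)
    rw [D_comm a x0] at this
    linarith
  · have h1 : ∀ a ∈ A1, (#A1 : ℝ) * ρ / 2 ≤ ∑ b ∈ A1, D a b := by
      intro a ha
      have haX : a ∈ X := (Finset.mem_filter.1 ha).1
      have h2 := hopen a haX
      have h3 : #(A1.filter (fun b => D a b < ρ)) ≤ #(X.filter (fun b => D a b < ρ)) :=
        Finset.card_le_card (Finset.filter_subset_filter _ (Finset.filter_subset _ _))
      have h4 : #(A1.filter (fun b => D a b < ρ)) + #(A1.filter (fun b => ¬ D a b < ρ)) = #A1 :=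
        Finset.card_filter_add_card_filter_not _
      have h5 : #A1 ≤ 2 * #(A1.filter (fun b => ¬ D a b < ρ)) := by omega
      have h5' : (#A1 : ℝ) ≤ 2 * #(A1.filter (fun b => ¬ D a b < ρ)) := by exact_mod_cast h5
      calc (#A1 : ℝ) * ρ / 2 ≤ (#(A1.filter (fun b => ¬ D a b < ρ)) : ℝ) * ρ := by nlinarith
        _ = ∑ b ∈ A1.filter (fun b => ¬ D a b < ρ), ρ := by
            rw [Finset.sum_const, nsmul_eq_mul]
        _ ≤ ∑ b ∈ A1.filter (fun b => ¬ D a b < ρ), D a b := by
            refine Finset.sum_le_sum fun b hb => ?_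
            exact not_lt.1 (Finset.mem_filter.1 hb).2
        _ ≤ ∑ b ∈ A1, D a b := by
            refine Finset.sum_le_sum_of_subset_of_nonneg (Finset.filter_subset _ _) ?_
            intro b _ _
            exact D_nonneg _ _
    have h2 : (#A1 : ℝ) ^ 2 * ρ / 2 ≤ ∑ a ∈ A1, ∑ b ∈ A1, D a b := by
      calc (#A1 : ℝ) ^ 2 * ρ / 2 = ∑ a ∈ A1, (#A1 : ℝ) * ρ / 2 := by
            rw [Finset.sum_const, nsmul_eq_mul]; ring
        _ ≤ _ := Finset.sum_le_sum h1
    linarith

end Pool.Agent.Helper87.SR
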