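import Mathlib
import Pool.Agent.Helper21.SR.St

/-! # SR module TT3 -/

set_option autoImplicit false

namespace Pool.Agent.Helper87.SR

open Finset
open Pool.Agent.Helper21.SR

/-- the double sum as a sum of two squares -/
theorem sqid (A : Finset ℕ) (a θ : ℕ → ℝ) :
    ∑ x ∈ A, ∑ y ∈ A, a x * a y * Real.cos (θ x - θ y) =
      (∑ x ∈ A, a x * Real.cos (θ x)) ^ 2 + (∑ x ∈ A, a x * Real.sin (θ x)) ^ 2 := by
  rw [sq, sq, sum_mul_sum, sum_mul_sum, ← sum_add_distrib]
  refine sum_congr rfl fun x _ => ?_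
  rw [← sum_add_distrib]
  refine sum_congr rfl fun y _ => ?_
  rw [Real.cos_sub]
  ring

theorem dbl_le (A : Finset ℕ) (a θ : ℕ → ℝ) (ha : ∀ x ∈ A, 0 ≤ a x) :
    ∑ x ∈ A, ∑ y ∈ A, a x * a y * Real.cos (θ x - θ y) ≤ (∑ x ∈ A, a x) ^ 2 := by
  rw [sq, sum_mul_sum]
  refine sum_le_sum fun x hx => sum_le_sum fun y hy => ?_
  have h1 := Real.cos_le_one (θ x - θ y)
  have h2 := mul_nonneg (ha x hx) (ha y hy)
  nlinarith

theorem dbl_nonneg (A : Finset ℕ) (a θ : ℕ → ℝ) :
    0 ≤ ∑ x ∈ A, ∑ y ∈ A, a x * a y * Real.cos (θ x - θ y) := by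
  rw [sqid]
  positivity

theorem hTT3 : StTT3 := by
  intro A h hA
  have hn : (0 : ℝ) < (#A : ℝ) := by exact_mod_cast hA.card_pos
  refine ⟨?_, ?_, ?_⟩
  · unfold Pc
    fun_prop
  · intro w
    have e : ∑ x ∈ A, ∑ y ∈ A, Real.cos (w * (h x - h y)) =
        ∑ x ∈ A, ∑ y ∈ A, (1 : ℝ) * 1 * Real.cos (w * h x - w * h y) := by
      refine sum_congr rfl fun x _ => sum_congr rfl fun y _ => ?_
      rw [mul_sub]; ring
    refine ⟨?_, ?_, ?_⟩
    · unfold Pc
      rw [e]
      have := dbl_nonneg A (fun _ => 1) (fun x => w * h x)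
      positivity
    · unfold Pc
      rw [e]
      have h1 := dbl_le A (fun _ => 1) (fun x => w * h x) (fun _ _ => zero_le_one)
      rw [one_div, inv_mul_le_iff₀ (by positivity)]
      refine h1.trans (le_of_eq ?_)
      rw [sum_const, nsmul_eq_mul]
      ring
    · unfold Pc
      have h1 : (∑ x ∈ A, ∑ y ∈ A, Real.cos (w / 2 * (h x - h y))) ^ 2 ≤
          (#A : ℝ) ^ 2 * ∑ x ∈ A, ∑ y ∈ A, Real.cos (w / 2 * (h x - h y)) ^ 2 := by
        rw [← sum_product', ← sum_product']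
        have := sq_sum_le_card_mul_sum_sq (s := A ×ˢ A)
          (f := fun q : ℕ × ℕ => Real.cos (w / 2 * (h q.1 - h q.2)))
        rw [card_product] at this
        push_cast at this
        rw [← sq] at this
        exact this
      have h2 : ∑ x ∈ A, ∑ y ∈ A, Real.cos (w * (h x - h y)) =
          2 * (∑ x ∈ A, ∑ y ∈ A, Real.cos (w / 2 * (h x - h y)) ^ 2) - (#A : ℝ) ^ 2 := by
        have : ∀ x ∈ A, ∑ y ∈ A, Real.cos (w * (h x - h y)) =
            2 * (∑ y ∈ A, Real.cos (w / 2 * (h x - h y)) ^ 2) - (#A : ℝ) := by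
          intro x _
          rw [mul_sum, eq_sub_iff_add_eq]
          have h3 : (#A : ℝ) = ∑ _y ∈ A, (1 : ℝ) := by
            rw [sum_const, nsmul_eq_mul, mul_one]
          rw [h3, ← sum_add_distrib]
          refine sum_congr rfl fun y _ => ?_
          have h4 := Real.cos_sq (w / 2 * (h x - h y))
          have h5 : 2 * (w / 2 * (h x - h y)) = w * (h x - h y) := by ring
          rw [h5] at h4
          rw [h4]; ring
        rw [sum_congr rfl this, sum_sub_distrib, ← mul_sum, sum_const, nsmul_eq_mul]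
        ring
      rw [h2]
      set s := ∑ x ∈ A, ∑ y ∈ A, Real.cos (w / 2 * (h x - h y)) with hs
      set t := ∑ x ∈ A, ∑ y ∈ A, Real.cos (w / 2 * (h x - h y)) ^ 2 with ht
      have e1 : 2 * (1 / (#A : ℝ) ^ 2 * s) ^ 2 - 1 =
          (2 * (s ^ 2 / (#A : ℝ) ^ 2) - (#A : ℝ) ^ 2) / (#A : ℝ) ^ 2 := by
        field_simp
      have e2 : 1 / (#A : ℝ) ^ 2 * (2 * t - (#A : ℝ) ^ 2) =
          (2 * t - (#A : ℝ) ^ 2) / (#A : ℝ) ^ 2 := by ring
      rw [e1, e2]
      have e3 : s ^ 2 / (#A : ℝ) ^ 2 ≤ t := by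
        rw [div_le_iff₀ (by positivity)]
        linarith
      gcongr
  · intro L S p hp hrow w
    have e : ∀ l, ∑ x ∈ A, ∑ y ∈ A, p x l * p y l * Real.cos (w * (h x - h y)) =
        ∑ x ∈ A, ∑ y ∈ A, p x l * p y l * Real.cos (w * h x - w * h y) := by
      intro l
      refine sum_congr rfl fun x _ => sum_congr rfl fun y _ => ?_
      rw [mul_sub]
    have h0 : ∀ l ∈ S, 0 ≤ ∑ x ∈ A, p x l := fun l hl => sum_nonneg fun x hx => hp x hx l hl
    constructor
    · unfold Ac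
      refine mul_nonneg (by positivity) (sum_nonneg fun l hl => ?_)
      rw [e]
      exact div_nonneg (dbl_nonneg A (fun x => p x l) (fun x => w * h x)) (h0 l hl)
    · unfold Ac
      have h1 : ∑ l ∈ S, (∑ x ∈ A, ∑ y ∈ A, p x l * p y l * Real.cos (w * (h x - h y))) /
          (∑ x ∈ A, p x l) ≤ ∑ l ∈ S, ∑ x ∈ A, p x l := by
        refine sum_le_sum fun l hl => ?_
        rw [e]
        have h2 := dbl_le A (fun x => p x l) (fun x => w * h x) (fun x hx => hp x hx l hl)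
        rcases eq_or_lt_of_le (h0 l hl) with h3 | h3
        · rw [← h3, div_zero]
        · rw [div_le_iff₀ h3, ← sq]
          exact h2
      have h2 : ∑ l ∈ S, ∑ x ∈ A, p x l = (#A : ℝ) := by
        rw [sum_comm, sum_congr rfl hrow, sum_const, nsmul_eq_mul, mul_one]
      rw [h2] at h1
      rw [one_div, inv_mul_le_iff₀ hn, mul_one]
      exact h1

end Pool.Agent.Helper87.SR
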