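import Mathlib
import Pool.Agent.Helper21.SR.St
import Pool.Agent.Helper87.SR.M_TT3

/-! # SR module TT2 -/

set_option autoImplicit false

namespace Pool.Agent.Helper87.SR

open Finset
open Pool.Agent.Helper21.SR

/-- a positive semidefinite kernel -/
theorem psd_TT2 {ι : Type} (Q : Finset ι) (m : ι → ℕ) (c : ℕ → ℝ) (hc : ∀ z, 0 ≤ c z)
    (u : ι → ℝ) :
    0 ≤ ∑ i ∈ Q, ∑ j ∈ Q, if m i = m j then c (m i) * (u i * u j) else 0 := by
  have key : ∑ i ∈ Q, ∑ j ∈ Q, (if m i = m j then c (m i) * (u i * u j) else 0) =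
      ∑ z ∈ Q.image m, c z * (∑ i ∈ Q, if m i = z then u i else 0) ^ 2 := by
    have e1 : ∀ z, c z * (∑ i ∈ Q, if m i = z then u i else 0) ^ 2 =
        ∑ i ∈ Q, ∑ j ∈ Q, if m i = z then (if m j = z then c z * (u i * u j) else 0) else 0 := by
      intro z
      rw [sq, sum_mul_sum, mul_sum]
      refine sum_congr rfl fun i _ => ?_
      rw [mul_sum]
      refine sum_congr rfl fun j _ => ?_
      split_ifs <;> ring
    symm
    calc ∑ z ∈ Q.image m, c z * (∑ i ∈ Q, if m i = z then u i else 0) ^ 2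
        = ∑ z ∈ Q.image m, ∑ i ∈ Q, ∑ j ∈ Q,
            (if m i = z then (if m j = z then c z * (u i * u j) else 0) else 0) :=
          Finset.sum_congr rfl (fun (z : ℕ) _ => e1 z)
      _ = ∑ i ∈ Q, ∑ z ∈ Q.image m, ∑ j ∈ Q,
            (if m i = z then (if m j = z then c z * (u i * u j) else 0) else 0) :=
          Finset.sum_comm
      _ = ∑ i ∈ Q, ∑ j ∈ Q, ∑ z ∈ Q.image m,
            (if m i = z then (if m j = z then c z * (u i * u j) else 0) else 0) :=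
          Finset.sum_congr rfl fun i _ => Finset.sum_comm
      _ = _ := by
          refine Finset.sum_congr rfl fun i hi => Finset.sum_congr rfl fun j _ => ?_
          rw [Finset.sum_ite_eq, if_pos (Finset.mem_image_of_mem m hi)]
          by_cases hij : m i = m j
          · rw [if_pos hij, if_pos hij.symm]
          · rw [if_neg hij, if_neg (fun hh => hij hh.symm)]
  rw [key]
  exact sum_nonneg fun z _ => mul_nonneg (hc z) (sq_nonneg _)

/-- the number of representations -/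
theorem row_TT2 (A : Finset ℕ) {x s : ℕ} (hx : x ∈ A) (hs : s ∈ A) :
    ∑ q ∈ A ×ˢ A, (if x * s = q.1 * q.2 then 1 / (fr A (x * s) : ℝ) else 0) = 1 := by
  have h1 : 0 < fr A (x * s) := by
    unfold fr
    rw [card_pos]
    exact ⟨(x, s), mem_filter.mpr ⟨mem_product.mpr ⟨hx, hs⟩, rfl⟩⟩
  rw [← sum_filter, sum_const, nsmul_eq_mul]
  have h2 : ((A ×ˢ A).filter (fun q => x * s = q.1 * q.2)).card = fr A (x * s) := by
    unfold fr
    congr 1
    ext q
    simp only [mem_filter]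
    constructor
    · rintro ⟨a, b⟩; exact ⟨a, b.symm⟩
    · rintro ⟨a, b⟩; exact ⟨a, b.symm⟩
  rw [h2]
  have : (fr A (x * s) : ℝ) ≠ 0 := by exact_mod_cast h1.ne'
  field_simp

/-- the variational lower bound for `Gc`, with a test function which depends only on the product -/
theorem var_TT2 (A : Finset ℕ) (h : ℕ → ℝ) (w : ℝ) (g1 g2 : ℕ × ℕ → ℝ)
    (hg : ∀ x ∈ A, ∀ s ∈ A, ∀ y ∈ A, ∀ t ∈ A, x * s = y * t →
      g1 (x, s) = g1 (y, t) ∧ g2 (x, s) = g2 (y, t)) (hA : A.Nonempty) :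
    ∑ q ∈ A ×ˢ A, (2 * (Real.cos (w * h q.1) * g1 q + Real.sin (w * h q.1) * g2 q) -
      (g1 q ^ 2 + g2 q ^ 2)) ≤ (#A : ℝ) ^ 2 * Gc A h w := by
  have hn : (#A : ℝ) ≠ 0 := by exact_mod_cast hA.card_pos.ne'
  set c : ℕ → ℝ := fun z => 1 / (fr A z : ℝ) with hc
  have hc0 : ∀ z, 0 ≤ c z := fun z => by rw [hc]; positivity
  have p1 := psd_TT2 (A ×ˢ A) (fun q => q.1 * q.2) c hc0 (fun q => Real.cos (w * h q.1) - g1 q)
  have p2 := psd_TT2 (A ×ˢ A) (fun q => q.1 * q.2) c hc0 (fun q => Real.sin (w * h q.1) - g2 q)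
  -- `n² Gc` as a sum over pairs
  have eG : (#A : ℝ) ^ 2 * Gc A h w = ∑ i ∈ A ×ˢ A, ∑ j ∈ A ×ˢ A,
      if i.1 * i.2 = j.1 * j.2 then c (i.1 * i.2) * Real.cos (w * (h i.1 - h j.1)) else 0 := by
    unfold Gc wk
    have : ∀ x ∈ A, ∑ y ∈ A, (1 / (#A : ℝ) * ∑ s ∈ A, ∑ t ∈ A,
        if x * s = y * t then 1 / (fr A (x * s) : ℝ) else 0) * Real.cos (w * (h x - h y)) =
        1 / (#A : ℝ) * ∑ s ∈ A, ∑ y ∈ A, ∑ t ∈ A,
          if x * s = y * t then c (x * s) * Real.cos (w * (h x - h y)) else 0 := by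
      intro x _
      rw [sum_comm, mul_sum]
      refine sum_congr rfl fun y _ => ?_
      rw [mul_assoc, sum_mul]
      congr 1
      refine sum_congr rfl fun s _ => ?_
      rw [sum_mul]
      refine sum_congr rfl fun t _ => ?_
      split_ifs
      · rfl
      · ring
    rw [sum_congr rfl this, ← mul_sum, ← mul_assoc, ← mul_assoc]
    rw [show (#A : ℝ) ^ 2 * (1 / (#A : ℝ)) * (1 / (#A : ℝ)) = 1 by field_simp, one_mul]
    rw [sum_product]
    refine sum_congr rfl fun x _ => sum_congr rfl fun s _ => ?_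
    rw [sum_product]
  -- expansion
  have e2 : ∑ i ∈ A ×ˢ A, ∑ j ∈ A ×ˢ A, (if i.1 * i.2 = j.1 * j.2 then c (i.1 * i.2) *
        ((Real.cos (w * h i.1) - g1 i) * (Real.cos (w * h j.1) - g1 j)) else 0) +
      ∑ i ∈ A ×ˢ A, ∑ j ∈ A ×ˢ A, (if i.1 * i.2 = j.1 * j.2 then c (i.1 * i.2) *
        ((Real.sin (w * h i.1) - g2 i) * (Real.sin (w * h j.1) - g2 j)) else 0) =
      (#A : ℝ) ^ 2 * Gc A h w -
      ∑ q ∈ A ×ˢ A, (2 * (Real.cos (w * h q.1) * g1 q + Real.sin (w * h q.1) * g2 q) -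
        (g1 q ^ 2 + g2 q ^ 2)) := by
    -- sum of a function of the first pair
    have row : ∀ F : ℕ × ℕ → ℝ, ∑ i ∈ A ×ˢ A, ∑ j ∈ A ×ˢ A,
        (if i.1 * i.2 = j.1 * j.2 then c (i.1 * i.2) * F i else 0) = ∑ i ∈ A ×ˢ A, F i := by
      intro F
      refine sum_congr rfl fun i hi => ?_
      rw [mem_product] at hi
      have := row_TT2 A hi.1 hi.2
      calc ∑ j ∈ A ×ˢ A, (if i.1 * i.2 = j.1 * j.2 then c (i.1 * i.2) * F i else 0) =
            (∑ j ∈ A ×ˢ A, (if i.1 * i.2 = j.1 * j.2 then 1 / (fr A (i.1 * i.2) : ℝ) else 0)) *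
              F i := by
            rw [sum_mul]
            refine sum_congr rfl fun j _ => ?_
            split_ifs
            · rfl
            · ring
        _ = F i := by rw [this, one_mul]
    have col : ∀ F : ℕ × ℕ → ℝ, ∑ i ∈ A ×ˢ A, ∑ j ∈ A ×ˢ A,
        (if i.1 * i.2 = j.1 * j.2 then c (i.1 * i.2) * F j else 0) = ∑ i ∈ A ×ˢ A, F i := by
      intro F
      rw [sum_comm, ← row F]
      refine sum_congr rfl fun i _ => sum_congr rfl fun j _ => ?_
      by_cases hij : i.1 * i.2 = j.1 * j.2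
      · rw [if_pos hij, if_pos hij.symm, hij]
      · rw [if_neg hij, if_neg (fun hh => hij hh.symm)]
    have hsplit : ∀ i ∈ A ×ˢ A, ∀ j ∈ A ×ˢ A,
        (if i.1 * i.2 = j.1 * j.2 then c (i.1 * i.2) *
          ((Real.cos (w * h i.1) - g1 i) * (Real.cos (w * h j.1) - g1 j)) else 0) +
        (if i.1 * i.2 = j.1 * j.2 then c (i.1 * i.2) *
          ((Real.sin (w * h i.1) - g2 i) * (Real.sin (w * h j.1) - g2 j)) else 0) =
        (if i.1 * i.2 = j.1 * j.2 then c (i.1 * i.2) * Real.cos (w * (h i.1 - h j.1)) else 0) -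
        ((if i.1 * i.2 = j.1 * j.2 then c (i.1 * i.2) *
            (Real.cos (w * h i.1) * g1 i + Real.sin (w * h i.1) * g2 i) else 0) +
         (if i.1 * i.2 = j.1 * j.2 then c (i.1 * i.2) *
            (Real.cos (w * h j.1) * g1 j + Real.sin (w * h j.1) * g2 j) else 0) -
         (if i.1 * i.2 = j.1 * j.2 then c (i.1 * i.2) * (g1 i ^ 2 + g2 i ^ 2) else 0)) := by
      intro i hi j hj
      rw [mem_product] at hi hj
      by_cases hij : i.1 * i.2 = j.1 * j.2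
      · simp only [if_pos hij]
        obtain ⟨q1, q2⟩ := hg i.1 hi.1 i.2 hi.2 j.1 hj.1 j.2 hj.2 hij
        have q1' : g1 i = g1 j := q1
        have q2' : g2 i = g2 j := q2
        rw [mul_sub w, Real.cos_sub, q1', q2']
        ring
      · simp only [if_neg hij]
        ring
    rw [← sum_add_distrib]
    have : ∀ i ∈ A ×ˢ A, (∑ j ∈ A ×ˢ A, (if i.1 * i.2 = j.1 * j.2 then c (i.1 * i.2) *
        ((Real.cos (w * h i.1) - g1 i) * (Real.cos (w * h j.1) - g1 j)) else 0) +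
      ∑ j ∈ A ×ˢ A, (if i.1 * i.2 = j.1 * j.2 then c (i.1 * i.2) *
        ((Real.sin (w * h i.1) - g2 i) * (Real.sin (w * h j.1) - g2 j)) else 0)) =
      ∑ j ∈ A ×ˢ A, (if i.1 * i.2 = j.1 * j.2 then c (i.1 * i.2) *
          Real.cos (w * (h i.1 - h j.1)) else 0) -
        (∑ j ∈ A ×ˢ A, (if i.1 * i.2 = j.1 * j.2 then c (i.1 * i.2) *
            (Real.cos (w * h i.1) * g1 i + Real.sin (w * h i.1) * g2 i) else 0) +
         ∑ j ∈ A ×ˢ A, (if i.1 * i.2 = j.1 * j.2 then c (i.1 * i.2) *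
            (Real.cos (w * h j.1) * g1 j + Real.sin (w * h j.1) * g2 j) else 0) -
         ∑ j ∈ A ×ˢ A, (if i.1 * i.2 = j.1 * j.2 then c (i.1 * i.2) *
            (g1 i ^ 2 + g2 i ^ 2) else 0)) := by
      intro i hi
      rw [← sum_add_distrib, ← sum_add_distrib, ← sum_sub_distrib, ← sum_sub_distrib]
      exact sum_congr rfl fun j hj => hsplit i hi j hj
    rw [sum_congr rfl this, sum_sub_distrib, sum_sub_distrib, sum_add_distrib, ← eG,
      row (fun i => Real.cos (w * h i.1) * g1 i + Real.sin (w * h i.1) * g2 i),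
      col (fun i => Real.cos (w * h i.1) * g1 i + Real.sin (w * h i.1) * g2 i),
      row (fun i => g1 i ^ 2 + g2 i ^ 2), sum_sub_distrib, ← mul_sum]
    ring
  linarith

/-- sums of cosines and sines of sums -/
theorem cosadd_TT2 (A : Finset ℕ) (θ : ℕ → ℝ) :
    ∑ q ∈ A ×ˢ A, Real.cos (θ q.1 + θ q.2) =
      (∑ x ∈ A, Real.cos (θ x)) ^ 2 - (∑ x ∈ A, Real.sin (θ x)) ^ 2 := by
  rw [sum_product, sq, sq, sum_mul_sum, sum_mul_sum, ← sum_sub_distrib]
  refine sum_congr rfl fun x _ => ?_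
  rw [← sum_sub_distrib]
  refine sum_congr rfl fun y _ => ?_
  rw [Real.cos_add]

theorem hTT2 : StTT2 := by
  intro A h w a b _ hA hadd hab
  have hn : (0 : ℝ) < (#A : ℝ) := by exact_mod_cast hA.card_pos
  set n : ℝ := (#A : ℝ) with hndef
  set C : ℝ := ∑ x ∈ A, Real.cos (w * h x) with hC
  set S : ℝ := ∑ x ∈ A, Real.sin (w * h x) with hS
  set ζ : ℂ := ⟨C, S⟩ with hζ
  set θ : ℝ := Complex.arg ζ with hθ
  have c1 : ‖ζ‖ * Real.cos θ = C := Complex.norm_mul_cos_arg ζ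
  have c2 : ‖ζ‖ * Real.sin θ = S := Complex.norm_mul_sin_arg ζ
  have c3 : ‖ζ‖ ^ 2 = C ^ 2 + S ^ 2 := by
    rw [Complex.sq_norm, Complex.normSq_apply]
    ring
  have hP : n ^ 2 * Pc A h w = C ^ 2 + S ^ 2 := by
    unfold Pc
    rw [← mul_assoc, mul_one_div_cancel (by positivity), one_mul]
    have := sqid A (fun _ => 1) (fun x => w * h x)
    simp only [one_mul] at this
    rw [← this]
    refine sum_congr rfl fun x _ => sum_congr rfl fun y _ => ?_
    rw [mul_sub]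
  have hPs : Real.sqrt (Pc A h w) = ‖ζ‖ / n := by
    have : Pc A h w = (‖ζ‖ / n) ^ 2 := by
      rw [div_pow, c3, ← hP]
      field_simp
    rw [this, Real.sqrt_sq (by positivity)]
  -- the sums of cosines
  have s1 : ∑ x ∈ A, Real.cos (w * h x - θ) = ‖ζ‖ := by
    have : ∑ x ∈ A, Real.cos (w * h x - θ) = C * Real.cos θ + S * Real.sin θ := by
      rw [hC, hS, sum_mul, sum_mul, ← sum_add_distrib]
      exact sum_congr rfl fun x _ => Real.cos_sub _ _
    rw [this, ← c1, ← c2]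
    have := Real.sin_sq_add_cos_sq θ
    linear_combination ‖ζ‖ * this
  have s2 : ∑ x ∈ A, Real.sin (w * h x - θ) = 0 := by
    have : ∑ x ∈ A, Real.sin (w * h x - θ) = S * Real.cos θ - C * Real.sin θ := by
      rw [hC, hS, sum_mul, sum_mul, ← sum_sub_distrib]
      exact sum_congr rfl fun x _ => Real.sin_sub _ _
    rw [this, ← c1, ← c2]
    ring
  obtain ⟨ψ, hψ⟩ : ∃ ψ : ℕ × ℕ → ℝ, ∀ q, ψ q = w * (h q.1 + h q.2) / 2 - θ :=
    ⟨_, fun _ => rfl⟩
  -- first sum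
  have t1 : ∑ q ∈ A ×ˢ A, Real.cos (w * (h q.1 - h q.2) / 2) = n ^ 2 * Pc A h (w / 2) := by
    unfold Pc
    rw [← mul_assoc, mul_one_div_cancel (by positivity), one_mul, sum_product]
    refine sum_congr rfl fun x _ => sum_congr rfl fun y _ => ?_
    congr 1
    ring
  have t2 : ∑ q ∈ A ×ˢ A, 2 * (Real.cos (w * (h q.1 - h q.2) / 2) * Real.cos (ψ q)) =
      2 * n * ‖ζ‖ := by
    have e : ∀ q : ℕ × ℕ, 2 * (Real.cos (w * (h q.1 - h q.2) / 2) * Real.cos (ψ q)) =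
        Real.cos (w * h q.1 - θ) + Real.cos (w * h q.2 - θ) := by
      intro q
      have e1 : w * h q.1 - θ = w * (h q.1 - h q.2) / 2 + ψ q := by rw [hψ]; ring
      have e2 : w * h q.2 - θ = -(w * (h q.1 - h q.2) / 2 - ψ q) := by rw [hψ]; ring
      rw [e1, e2, Real.cos_neg, Real.cos_add, Real.cos_sub]
      ring
    rw [sum_congr rfl (fun q _ => e q), sum_add_distrib, sum_product, sum_product]
    simp only [sum_const, nsmul_eq_mul]
    rw [← mul_sum, s1]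
    ring
  have t3 : ∑ q ∈ A ×ˢ A, Real.cos (ψ q) ≤ n ^ 2 * Pc A h (w / 2) := by
    have e1 := cosadd_TT2 A (fun x => w * h x / 2 - θ / 2)
    have e2 : ∑ q ∈ A ×ˢ A, Real.cos (ψ q) =
        ∑ q ∈ A ×ˢ A, Real.cos ((w * h q.1 / 2 - θ / 2) + (w * h q.2 / 2 - θ / 2)) := by
      refine sum_congr rfl fun q _ => ?_
      congr 1
      rw [hψ]; ring
    rw [e2, e1, ← t1]
    have e3 := sqid A (fun _ => 1) (fun x => w * h x / 2 - θ / 2)
    simp only [one_mul] at e3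
    have e4 : ∑ q ∈ A ×ˢ A, Real.cos (w * (h q.1 - h q.2) / 2) =
        ∑ x ∈ A, ∑ y ∈ A, Real.cos (w * h x / 2 - θ / 2 - (w * h y / 2 - θ / 2)) := by
      rw [sum_product]
      refine sum_congr rfl fun x _ => sum_congr rfl fun y _ => ?_
      congr 1
      ring
    rw [e4, e3]
    nlinarith [sq_nonneg (∑ x ∈ A, Real.sin (w * h x / 2 - θ / 2))]
  have t4 : ∑ q ∈ A ×ˢ A, Real.cos (2 * ψ q) = n ^ 2 * Pc A h w := by
    have e1 := cosadd_TT2 A (fun x => w * h x - θ)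
    have e2 : ∑ q ∈ A ×ˢ A, Real.cos (2 * ψ q) =
        ∑ q ∈ A ×ˢ A, Real.cos ((w * h q.1 - θ) + (w * h q.2 - θ)) := by
      refine sum_congr rfl fun q _ => ?_
      congr 1
      rw [hψ]; ring
    rw [e2, e1, s1, s2, hP, c3]
    ring
  -- the test function
  have key := var_TT2 A h w (fun q => (a + 2 * b * Real.cos (ψ q)) * Real.cos (w * (h q.1 + h q.2) / 2))
    (fun q => (a + 2 * b * Real.cos (ψ q)) * Real.sin (w * (h q.1 + h q.2) / 2)) (by
      intro x hx s hs y hy t ht he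
      have := hadd x hx s hs y hy t ht he
      simp only [hψ]
      rw [this]
      exact ⟨rfl, rfl⟩) hA
  have e5 : ∀ q : ℕ × ℕ, 2 * (Real.cos (w * h q.1) * ((a + 2 * b * Real.cos (ψ q)) *
        Real.cos (w * (h q.1 + h q.2) / 2)) + Real.sin (w * h q.1) *
        ((a + 2 * b * Real.cos (ψ q)) * Real.sin (w * (h q.1 + h q.2) / 2))) -
      (((a + 2 * b * Real.cos (ψ q)) * Real.cos (w * (h q.1 + h q.2) / 2)) ^ 2 +
        ((a + 2 * b * Real.cos (ψ q)) * Real.sin (w * (h q.1 + h q.2) / 2)) ^ 2) =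
      2 * a * Real.cos (w * (h q.1 - h q.2) / 2) +
      2 * b * (2 * (Real.cos (w * (h q.1 - h q.2) / 2) * Real.cos (ψ q))) -
      (a ^ 2 + 4 * a * b * Real.cos (ψ q) + 2 * b ^ 2 + 2 * b ^ 2 * Real.cos (2 * ψ q)) := by
    intro q
    have f1 : w * (h q.1 - h q.2) / 2 = w * h q.1 - w * (h q.1 + h q.2) / 2 := by ring
    rw [f1, Real.cos_sub, Real.cos_two_mul]
    have f2 := Real.sin_sq_add_cos_sq (w * (h q.1 + h q.2) / 2)
    linear_combination (-(a + 2 * b * Real.cos (ψ q)) ^ 2) * f2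
  have e6 : ∑ q ∈ A ×ˢ A, (2 * a * Real.cos (w * (h q.1 - h q.2) / 2) +
      2 * b * (2 * (Real.cos (w * (h q.1 - h q.2) / 2) * Real.cos (ψ q))) -
      (a ^ 2 + 4 * a * b * Real.cos (ψ q) + 2 * b ^ 2 + 2 * b ^ 2 * Real.cos (2 * ψ q))) =
      2 * a * (∑ q ∈ A ×ˢ A, Real.cos (w * (h q.1 - h q.2) / 2)) +
      2 * b * (∑ q ∈ A ×ˢ A, 2 * (Real.cos (w * (h q.1 - h q.2) / 2) * Real.cos (ψ q))) -
      (n ^ 2 * a ^ 2 + 4 * a * b * (∑ q ∈ A ×ˢ A, Real.cos (ψ q)) + n ^ 2 * (2 * b ^ 2) +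
        2 * b ^ 2 * (∑ q ∈ A ×ˢ A, Real.cos (2 * ψ q))) := by
    have hc : ∀ r : ℝ, ∑ _q ∈ A ×ˢ A, r = n ^ 2 * r := by
      intro r
      rw [sum_const, card_product, nsmul_eq_mul, hndef]
      push_cast
      ring
    rw [← hc (a ^ 2), ← hc (2 * b ^ 2), mul_sum, mul_sum, mul_sum, mul_sum]
    rw [← sum_add_distrib, ← sum_add_distrib, ← sum_add_distrib, ← sum_add_distrib,
      ← sum_sub_distrib]
  rw [sum_congr rfl (fun q _ => e5 q), e6, t1, t2, t4, ← hndef] at key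
  have f3 : 4 * a * b * ∑ q ∈ A ×ˢ A, Real.cos (ψ q) ≤ 4 * a * b * (n ^ 2 * Pc A h (w / 2)) := by
    have : 0 ≤ 4 * a * b := by nlinarith
    exact mul_le_mul_of_nonneg_left t3 this
  have f4 : n ^ 2 * (2 * a * Pc A h (w / 2) + 4 * b * Real.sqrt (Pc A h w) - a ^ 2 -
      2 * b ^ 2 * (1 + Pc A h w) - 4 * a * b * Pc A h (w / 2)) ≤ n ^ 2 * Gc A h w := by
    rw [hPs]
    have f5 : n ^ 2 * (4 * b * (‖ζ‖ / n)) = 2 * b * (2 * n * ‖ζ‖) := by
      field_simp
      ring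
    nlinarith
  exact le_of_mul_le_mul_left f4 (by positivity)

end Pool.Agent.Helper87.SR
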